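import Pool.Agent.W348.RG.Stms

/-! Project RG: from finite quotients to an ideal over a field of characteristic zero. -/

set_option autoImplicit false

namespace Pool.Agent.W597.RG

open Pool.Agent.W348.RG TensorProduct

/-- the Lie ring `M / I` -/
theorem quot_ex (L : Type) [LieRing L] (M I : AddSubgroup L)
    (hM : ∀ x ∈ M, ∀ y ∈ M, ⁅x, y⁆ ∈ M) (hI : ∀ x ∈ M, ∀ y ∈ I, ⁅x, y⁆ ∈ I) :
    ∃ (A : Type) (_ : LieRing A) (f : M →+ A), Function.Surjective f ∧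
      (∀ x y : M, f ⟨⁅(x : L), (y : L)⁆, hM x x.2 y y.2⟩ = ⁅f x, f y⁆) ∧
      (∀ x : M, f x = 0 ↔ (x : L) ∈ I) ∧ Nat.card A = I.relIndex M := by
  let MM : LieSubalgebra ℤ L :=
    { carrier := M
      add_mem' := fun ha hb => add_mem ha hb
      zero_mem' := zero_mem M
      smul_mem' := fun c x hx => zsmul_mem hx c
      lie_mem' := fun {x y} hx hy => hM x hx y hy }
  let II : LieIdeal ℤ MM :=
    { carrier := {x | (x : L) ∈ I}
      add_mem' := fun ha hb => add_mem (S := AddSubgroup L) ha hb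
      zero_mem' := zero_mem I
      smul_mem' := fun c x hx => zsmul_mem (S := AddSubgroup L) hx c
      lie_mem := fun {x m} hm => hI x x.2 m hm }
  refine ⟨MM ⧸ II, inferInstance, ⟨⟨fun x => LieSubmodule.Quotient.mk (⟨x.1, x.2⟩ : MM), ?_⟩, ?_⟩,
    ?_, ?_, ?_, ?_⟩
  · rfl
  · intro x y
    rfl
  · intro a
    induction a using Quotient.inductionOn' with
    | h a => exact ⟨⟨a.1, a.2⟩, rfl⟩
  · intro x y
    rfl
  · intro x
    show (LieSubmodule.Quotient.mk (⟨x.1, x.2⟩ : MM) : MM ⧸ II) = 0 ↔ _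
    rw [LieSubmodule.Quotient.mk_eq_zero']
    rfl
  · rfl

/-- the order is a power of `p` -/
theorem card_pow (L : Type) [AddCommGroup L] [Module ℚ L] (M I : AddSubgroup L) (A : Type)
    [AddCommGroup A] (f : M →+ A) (hsurj : Function.Surjective f)
    (hker : ∀ x : M, f x = 0 ↔ (x : L) ∈ I) (p : ℕ) (hp : p.Prime)
    (hIs : ∀ q ∈ Rp p, ∀ x ∈ I, q • x ∈ I) (j : ℕ) (h0 : Nat.card A ≠ 0)
    (hle : Nat.card A ≤ p ^ j) : ∃ k ≤ j, Nat.card A = p ^ k := by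
  have hfin : Finite A := Nat.finite_of_card_ne_zero h0
  have hfin' : Fintype A := Fintype.ofFinite A
  have huniq : ∀ {d : ℕ}, Nat.Prime d → d ∣ Nat.card A → d = p := by
    intro d hd hdvd
    by_contra hne
    haveI : Fact d.Prime := ⟨hd⟩
    rw [Nat.card_eq_fintype_card] at hdvd
    obtain ⟨x, hx⟩ := exists_prime_addOrderOf_dvd_card d hdvd
    obtain ⟨m, rfl⟩ := hsurj x
    have h1 : f (d • m) = 0 := by
      rw [map_nsmul, ← hx]
      exact addOrderOf_nsmul_eq_zero _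
    rw [hker] at h1
    have hd0 : (d : ℚ) ≠ 0 := by exact_mod_cast hd.ne_zero
    have h2 : ((d : ℚ)⁻¹) ∈ Rp p := by
      show ((d : ℚ)⁻¹).den.Coprime p
      rw [Rat.inv_natCast_den_of_pos hd.pos]
      exact (Nat.coprime_primes hd hp).2 hne
    have h3 := hIs _ h2 _ h1
    have h4 : (d : ℚ)⁻¹ • ((d • m : M) : L) = (m : L) := by
      rw [AddSubgroup.coe_nsmul, ← Nat.cast_smul_eq_nsmul ℚ, smul_smul, inv_mul_cancel₀ hd0,
        one_smul]
    rw [h4, ← hker] at h3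
    rw [h3, addOrderOf_zero] at hx
    exact hd.one_lt.ne hx
  have h1 := Nat.eq_prime_pow_of_unique_prime_dvd h0 huniq
  refine ⟨_, ?_, h1⟩
  rw [h1] at hle
  exact (Nat.pow_le_pow_iff_right hp.one_lt).1 hle

theorem jx_aux (hult : S_ult) (L : Type) [LieRing L] [LieAlgebra ℚ L] [Module.Finite ℚ L]
    (v : L) (j : ℕ) (T : Set ℕ) (hT : T.Infinite) (hTp : ∀ p ∈ T, p.Prime)
    (M I : ℕ → AddSubgroup L)
    (hIs : ∀ p ∈ T, ∀ q ∈ Rp p, ∀ x ∈ I p, q • x ∈ I p)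
    (hMb : ∀ p, ∀ x ∈ M p, ∀ y ∈ M p, ⁅x, y⁆ ∈ M p)
    (hIb : ∀ p, ∀ x ∈ M p, ∀ y ∈ I p, ⁅x, y⁆ ∈ I p)
    (hc : ∀ p ∈ T, (I p).relIndex (M p) ≠ 0 ∧ (I p).relIndex (M p) ≤ p ^ j)
    (hM : ∀ x : L, ∃ p₀, ∀ p ∈ T, p₀ ≤ p → x ∈ M p)
    (hvM : ∀ p ∈ T, v ∈ M p)
    (hv : ∀ p ∈ T, v ∉ I p) :
    ∃ (F : Type) (_ : Field F) (_ : Algebra ℚ F) (I' : LieIdeal F (F ⊗[ℚ] L)),
      Module.finrank F (F ⊗[ℚ] L) ≤ Module.finrank F I' + j ∧ (1 : F) ⊗ₜ[ℚ] v ∉ I' := by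
  classical
  choose A instA f hsurj hbr hker hcard using
    fun p => quot_ex L (M p) (I p) (hMb p) (hIb p)
  obtain ⟨F, instF, instFQ, B, instB, instBF, π, hfin, hrank, hπbr, hπ0, hπ1⟩ :=
    hult T hT hTp j A (fun p hp => by
      refine card_pow L (M p) (I p) (A p) (f p) (hsurj p) (hker p) p (hTp p hp) (hIs p hp) j ?_ ?_
      · rw [hcard]; exact (hc p hp).1
      · rw [hcard]; exact (hc p hp).2)
  refine ⟨F, instF, instFQ, ?_⟩
  let u : L → ∀ p, A p := fun x p => if h : x ∈ M p then f p ⟨x, h⟩ else 0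
  have hu : ∀ x p (h : x ∈ M p), u x p = f p ⟨x, h⟩ := by
    intro x p h
    simp only [u]
    rw [dif_pos h]
  have hfinM : ∀ x y : L, {p | p ∈ T ∧ ¬ (x ∈ M p ∧ y ∈ M p)}.Finite := by
    intro x y
    obtain ⟨p0, h0⟩ := hM x
    obtain ⟨p1, h1⟩ := hM y
    refine (Set.finite_Iio (max p0 p1)).subset ?_
    rintro p ⟨hpT, hp⟩
    rw [Set.mem_Iio]
    by_contra hcon
    push Not at hcon
    exact hp ⟨h0 p hpT ((le_max_left _ _).trans hcon), h1 p hpT ((le_max_right _ _).trans hcon)⟩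
  let Φ : L →+ B := AddMonoidHom.mk' (fun x => π (u x)) (by
    intro x y
    rw [← sub_eq_zero, ← map_add, ← map_sub]
    apply hπ0
    refine (hfinM x y).subset ?_
    rintro p ⟨hpT, hp⟩
    refine ⟨hpT, ?_⟩
    rintro ⟨hx, hy⟩
    apply hp
    show u (x + y) p - (u x p + u y p) = 0
    rw [hu _ _ (add_mem hx hy), hu _ _ hx, hu _ _ hy, ← map_add, sub_eq_zero]
    rfl)
  have hΦ : ∀ x, Φ x = π (u x) := fun x => rfl
  have hΦb : ∀ x y, Φ ⁅x, y⁆ = ⁅Φ x, Φ y⁆ := by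
    intro x y
    rw [hΦ, hΦ, hΦ, ← hπbr, ← sub_eq_zero, ← map_sub]
    apply hπ0
    refine (hfinM x y).subset ?_
    rintro p ⟨hpT, hp⟩
    refine ⟨hpT, ?_⟩
    rintro ⟨hx, hy⟩
    apply hp
    show u ⁅x, y⁆ p - ⁅u x p, u y p⁆ = 0
    rw [hu _ _ (hMb p x hx y hy), hu _ _ hx, hu _ _ hy, ← hbr, sub_self]
  letI : Module ℚ B := Module.compHom B (algebraMap ℚ F)
  haveI : IsScalarTower ℚ F B := ⟨fun q a b => by
    show (q • a) • b = (algebraMap ℚ F q) • (a • b)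
    rw [Algebra.smul_def, mul_smul]⟩
  let Ψ : F ⊗[ℚ] L →ₗ[F] B := (Φ.toRatLinearMap).liftBaseChange F
  have hΨ : ∀ a x, Ψ (a ⊗ₜ x) = a • Φ x := fun a x => rfl
  have hΨb : ∀ x y : F ⊗[ℚ] L, Ψ ⁅x, y⁆ = ⁅Ψ x, Ψ y⁆ := by
    intro x y
    induction x using TensorProduct.induction_on with
    | zero => simp
    | add x1 x2 h1 h2 => rw [add_lie, map_add, map_add, add_lie, h1, h2]
    | tmul a x =>
      induction y using TensorProduct.induction_on with
      | zero => simp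
      | add y1 y2 h1 h2 => rw [lie_add, map_add, map_add, lie_add, h1, h2]
      | tmul b y =>
        rw [LieAlgebra.ExtendScalars.bracket_tmul, hΨ, hΨ, hΨ, hΦb, smul_lie, lie_smul, smul_smul]
  let Ψ' : F ⊗[ℚ] L →ₗ⁅F⁆ B := { Ψ with map_lie' := fun {x y} => hΨb x y }
  refine ⟨Ψ'.ker, ?_, ?_⟩
  · have h1 := LinearMap.finrank_range_add_finrank_ker Ψ
    have h2 : Module.finrank F (LinearMap.range Ψ) ≤ j :=
      (Submodule.finrank_le _).trans hrank
    have h3 : Module.finrank F Ψ'.ker = Module.finrank F (LinearMap.ker Ψ) := rfl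
    omega
  · rw [LieHom.mem_ker]
    show Ψ (1 ⊗ₜ v) ≠ 0
    rw [hΨ, one_smul, hΦ]
    apply hπ1
    intro p hp
    rw [hu _ _ (hvM p hp), Ne, hker]
    exact hv p hp

theorem jx (hult : S_ult) : S_jx := by
  classical
  intro L _ _ _ v j T hT hTp M I hMs hIs hIM hMb hIb hc hM hv
  obtain ⟨p0, hp0⟩ := hM v
  set T' : Set ℕ := T \ Set.Iio p0 with hT'
  have hT'inf : T'.Infinite := hT.diff (Set.finite_Iio p0)
  have hsub : ∀ p ∈ T', p ∈ T := fun p hp => hp.1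
  have hM' : ∀ p ∈ T', (if p ∈ T then M p else ⊥) = M p := fun p hp => if_pos hp.1
  have hI' : ∀ p ∈ T', (if p ∈ T then I p else ⊥) = I p := fun p hp => if_pos hp.1
  refine jx_aux hult L v j T' hT'inf (fun p hp => hTp p hp.1)
    (fun p => if p ∈ T then M p else ⊥) (fun p => if p ∈ T then I p else ⊥) ?_ ?_ ?_ ?_ ?_ ?_ ?_
  · intro p hp q hq x hx
    simp only [hI' p hp] at hx ⊢
    exact hIs p hp.1 q hq x hx
  · intro p x hx y hy
    by_cases hp : p ∈ T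
    · simp only [if_pos hp] at hx hy ⊢
      exact hMb p hp x hx y hy
    · simp only [if_neg hp, AddSubgroup.mem_bot] at hx hy ⊢
      rw [hx, zero_lie]
  · intro p x hx y hy
    by_cases hp : p ∈ T
    · simp only [if_pos hp] at hx hy ⊢
      exact hIb p hp x hx y hy
    · simp only [if_neg hp, AddSubgroup.mem_bot] at hx hy ⊢
      rw [hx, zero_lie]
  · intro p hp
    simp only [hI' p hp, hM' p hp]
    exact hc p hp.1
  · intro x
    obtain ⟨p1, h1⟩ := hM x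
    refine ⟨p1, fun p hp hle => ?_⟩
    simp only [hM' p hp]
    exact h1 p hp.1 hle
  · intro p hp
    simp only [hM' p hp]
    exact hp0 p hp.1 (by simpa using hp.2)
  · intro p hp
    simp only [hI' p hp]
    exact hv p hp.1

end Pool.Agent.W597.RG
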