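import Pool.Agent.W348.RG.Stms

/-! Project RG: unitriangular groups are nilpotent. -/

set_option autoImplicit false

namespace Pool.Agent.W597.RG

open Pool.Agent.W348.RG

/-- matrices supported on the superdiagonals with number at least `i` -/
def Sp (m i : ℕ) : AddSubgroup (Mt m) where
  carrier := {A | ∀ a b : Fin m, (b : ℕ) < a + i → A a b = 0}
  add_mem' := by
    intro A B hA hB a b h
    rw [Matrix.add_apply, hA a b h, hB a b h, add_zero]
  zero_mem' := by
    intro a b _
    rfl
  neg_mem' := by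
    intro A hA a b h
    rw [Matrix.neg_apply, hA a b h, neg_zero]

theorem mem_Sp {m i : ℕ} (A : Mt m) :
    A ∈ Sp m i ↔ ∀ a b : Fin m, (b : ℕ) < a + i → A a b = 0 := Iff.rfl

theorem Sp_mul {m i j : ℕ} (A B : Mt m) (hA : A ∈ Sp m i) (hB : B ∈ Sp m j) :
    A * B ∈ Sp m (i + j) := by
  intro a b h
  rw [Matrix.mul_apply]
  refine Finset.sum_eq_zero ?_
  intro c _
  by_cases h1 : (c : ℕ) < a + i
  · rw [(mem_Sp A).1 hA a c h1, zero_mul]
  · rw [(mem_Sp B).1 hB c b (by omega), mul_zero]

theorem utn : S_utn := by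
  intro m K _ f hinj huni
  have h0 : ∀ k, f k ∈ Sp m 0 := by
    intro k a b h
    rw [huni k a b (by rw [Fin.le_def]; omega), if_neg]
    intro h2
    rw [h2] at h
    omega
  have h1 : ∀ k, f k - 1 ∈ Sp m 1 := by
    intro k a b h
    rw [Matrix.sub_apply, huni k a b (by rw [Fin.le_def]; omega), Matrix.one_apply, sub_self]
  have hmul0 : ∀ i (A : Mt m), A ∈ Sp m i → ∀ k, A * f k ∈ Sp m i := by
    intro i A hA k
    exact Sp_mul A (f k) hA (h0 k)
  let KK : ℕ → Subgroup K := fun i =>
    { carrier := {k | f k - 1 ∈ Sp m i}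
      mul_mem' := by
        intro g h hg hh
        have e : f (g * h) - 1 = (f g - 1) * f h + (f h - 1) := by
          rw [map_mul]; noncomm_ring
        rw [Set.mem_ofPred_eq, e]
        exact add_mem (hmul0 i _ hg h) hh
      one_mem' := by
        rw [Set.mem_ofPred_eq, map_one, sub_self]
        exact zero_mem _
      inv_mem' := by
        intro g hg
        have e : f g⁻¹ - 1 = -((f g - 1) * f g⁻¹) := by
          rw [sub_mul, ← map_mul, mul_inv_cancel, map_one]
          noncomm_ring
        rw [Set.mem_ofPred_eq, e]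
        exact neg_mem (hmul0 i _ hg _) }
  have hKK : ∀ i k, k ∈ KK i ↔ f k - 1 ∈ Sp m i := fun i k => Iff.rfl
  have hlow : ∀ n, (⊤ : Subgroup K).lowerCentralSeries n ≤ KK (n + 1) := by
    intro n
    induction n with
    | zero =>
      intro k _
      exact (hKK _ k).2 (h1 k)
    | succ n ih =>
      rw [Subgroup.lowerCentralSeries_succ, Subgroup.commutator_le]
      intro g hg h _
      have hg' := (hKK _ g).1 (ih hg)
      rw [hKK, commutatorElement_def]
      have e : f (g * h * g⁻¹ * h⁻¹) - 1
          = ((f g - 1) * (f h - 1) - (f h - 1) * (f g - 1)) * f (g⁻¹ * h⁻¹) := by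
        have e1 : f (h * g) * f (g⁻¹ * h⁻¹) = 1 := by
          rw [← map_mul]
          have : h * g * (g⁻¹ * h⁻¹) = 1 := by group
          rw [this, map_one]
        have e2 : f (g * h * g⁻¹ * h⁻¹) = f (g * h) * f (g⁻¹ * h⁻¹) := by
          rw [← map_mul]
          congr 1
          group
        rw [e2]
        nth_rewrite 1 [← e1]
        rw [← sub_mul, map_mul, map_mul]
        noncomm_ring
      rw [e]
      refine hmul0 _ _ (sub_mem ?_ ?_) _
      · exact Sp_mul _ _ hg' (h1 h)
      · have := Sp_mul _ _ (h1 h) hg'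
        rwa [add_comm] at this
  rw [Subgroup.nilpotent_iff_lowerCentralSeries]
  refine ⟨m, ?_⟩
  rw [eq_bot_iff]
  intro k hk
  rw [Subgroup.mem_bot]
  have h2 := (hKK _ k).1 (hlow m hk)
  apply hinj
  rw [map_one, ← sub_eq_zero]
  ext a b
  exact (mem_Sp _).1 h2 a b (by have := b.2; omega)

end Pool.Agent.W597.RG
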